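import Pool.Agent.N603.DB.Nm
import Pool.Agent.N603.DB.Nk

/-!
# Near coincidences between the powers of `π t` and `e`, `t` algebraic and near almost every point

The question is about the number of the pairs `(n, m)` with `|π^n - e^m| ≤ x`. We consider the bases `a t` and `b`, where
`a > 0` and `b > 1` are fixed real numbers, for instance `a = π`, `b = e`, and `t` is a positive real algebraic number;
`t = 1` is the question. The formula fails if there are near misses, that is if `|(a t)^n - b^m|` is much smaller than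
`b^m`.

(1) For all `ξ > 0` outside a set of Hausdorff dimension ZERO, all real number fields `F`, all `A` and all exponents
`τ > 0` there is `B` such that for all `C`: for ALL but finitely many elements `t` of `F` with `|ξ - t| ≤ C T^(-τ)`, `T` the
height of `t`, `|(a t)^n - b^m| ≥ T^(-B) b^m` for all `n, m ≤ T^A`, `n ≥ 1`, and, if `a t > 1`, the number of the pairs
`(n, m)`, `1 ≤ n ≤ T^A`, `m ≤ T^A`, with `|(a t)^n - b^m| ≤ x` is `(log x)² / (log (a t) log b)` up to the error which is
obtained if `log x` is replaced by `log x + O(log T)`, for all `x` with `log x ≤ c T^A`. So the asymptotic formula holds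
in the range `log T = o(log x)`, `log x ≤ c T^A`, with `A` arbitrary. For `F = ℚ` and `τ = 2` the `t` include all
convergents of `ξ`; but every `τ > 0` is allowed.

(2) The same at EVERY `t` in `F ∩ L`, `L` a compact set of positive real numbers, with a height within `q^κ` of `G q`, where
`q` runs through the natural numbers with `‖q α_j - β_j‖ ≤ C q^(-τ)` for `j = 1, …, m`, for all `α` in `ℝ^m` outside a set
of Hausdorff dimension at most `(m + κ) / (1 + τ)`. For `β = 0`, `C = 1`, `τ = 1 / m` these `q` include the denominators of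
all best simultaneous approximations; they form a very sparse sequence, and for `κ < 1` the bound is less than `m`, so that
the statement holds for almost all `α`. `G` is a function with steps bounded below by a positive constant and growth at
most `v^e`, for example `a v^e`.

Proof. `n log (a t) - m log b = n log t + (n log a - m log b)` is the value at `log t` of a linear polynomial whose
coefficients are combinations of `1, log a, log b` with small integers. The elements of height at most `T` in a compact set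
at which the logarithm has an approximate relation of bounded degree and height `T^A` relative to these constants are
`O(T^ε)` in number for every `ε > 0` (determinants of Bombieri-Pila type); so the limit superior of the intervals with
radii `C T^(-τ)` around them has dimension at most `ε / τ`, and for (2) the `q` for which such an element has a height near
`G q` form a set with `O(X^(κ + ε))` elements up to `X`, and the `α` with infinitely many approximations with denominators
in such a set are covered by few small cubes (`Pool.Agent.N671.DA`). There are only countably many number fields in `ℂ`.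
-/

set_option autoImplicit false

open NumberField

namespace Pool.Agent.Results.MP_606be1_nt.BasesNearEveryPoint

open Pool.Agent.N671.DA (Solves Expanding expanding_pow)

/-- The element `x` of `F` is a quotient of integers all of whose conjugates have absolute value at most `T`. -/
def HeightLe (F : Type) [Field F] [NumberField F] (T : ℝ) (x : F) : Prop :=
  ∃ a b : 𝓞 F, b ≠ 0 ∧ (∀ φ : F →+* ℂ, ‖φ a‖ ≤ T ∧ ‖φ b‖ ≤ T) ∧ x = a / b

/-- The height of `x`: the least `T` such that `x` is a quotient of two integers of `F` all of whose conjugates have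
absolute value at most `T`. -/
noncomputable def height (F : Type) [Field F] [NumberField F] (x : F) : ℝ := sInf {T : ℝ | HeightLe F T x}

/-- The pairs `(n, m)`, `1 ≤ n ≤ M`, `m ≤ M`, with `|p^n - b^m| ≤ x`. -/
def pairs (p b M x : ℝ) : Set (ℕ × ℕ) :=
  {q | 0 < q.1 ∧ (q.1 : ℝ) ≤ M ∧ (q.2 : ℝ) ≤ M ∧ |p ^ q.1 - b ^ q.2| ≤ x}

/-- `|p^n - b^m| ≥ b^m / D` for all `1 ≤ n ≤ M`, `m ≤ M`, and (if `p > 1`) the number of the pairs is
`(log x)² / (log p log b)` up to `log D`. -/
def Formula (p b M D : ℝ) : Prop :=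
  (∀ n m : ℕ, 0 < n → (n : ℝ) ≤ M → (m : ℝ) ≤ M → b ^ m ≤ D * |p ^ n - b ^ m|) ∧
  (1 < p → ∀ x : ℝ, 1 ≤ x → Real.log x / Real.log p ≤ M → Real.log x / Real.log b ≤ M →
    (pairs p b M x).Finite ∧
    (Real.log x / Real.log p - 1) * (Real.log x / Real.log b) ≤ ((pairs p b M x).ncard : ℝ) ∧
    ((pairs p b M x).ncard : ℝ) ≤
      (Real.log x + Real.log D + 1) / Real.log p * ((Real.log x + Real.log D) / Real.log b + 1))

theorem formula_of {F : Type} [Field F] [NumberField F] {ι : F →+* ℂ} {T A B' : ℝ} {r a b : ℝ} (hr : 0 < r) (ha : 0 < a)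
    (hb : 1 < b) (hT : 2 ≤ T)
    (h : Pool.Agent.R349.Gen.GoodG F ι (fun i : Fin 3 => Pool.Agent.N603.DB.Nm.cc a b i) 1 (T ^ A) (T ^ (-B'))
      (fun k => Pool.Agent.N603.DB.Nm.lg k (r : ℂ))) :
    Formula (a * r) b (T ^ A) (T ^ (max B' 0 + 1)) := by
  have hT0 : 0 < T := by linarith
  have hpos : 0 < T ^ (max B' 0 + 1) := Real.rpow_pos_of_pos hT0 _
  have h1 : ∀ n m : ℕ, 0 < n → (n : ℝ) ≤ T ^ A → (m : ℝ) ≤ T ^ A →
      b ^ m ≤ T ^ (max B' 0 + 1) * |(a * r) ^ n - b ^ m| := by
    intro n m hn hnT hmT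
    have h2 := Pool.Agent.N603.DB.Nm.concl hr ha hb hT h hn hnT hmT
    rw [Real.rpow_neg hT0.le, ← div_eq_mul_inv, div_le_iff₀ hpos, mul_comm] at h2
    exact h2
  refine ⟨h1, fun hp x hx hM1 hM2 => ?_⟩
  exact Pool.Agent.N603.DB.Nm.count hp hb hx hM1 hM2
    (Real.one_le_rpow (by linarith) (by linarith [le_max_right B' 0])) h1

/-- **Bases near every point.** Let `a > 0` and `b > 1`, for instance `a = π`, `b = e`.
(1) There is a set `E` of real numbers of Hausdorff dimension zero such that for all `ξ > 0` not in `E`, all number fields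
`F` in `ℂ`, all `A` and all `τ > 0` there is `B` such that for all `C` there is `T₁` such that the formula holds for `a t`
and `b` in the range `T^A`, up to `T^B`, for ALL positive real elements `t` of `F` of height `T ≥ T₁` with
`|ξ - t| ≤ C T^(-τ)`.
(2) Let `G` have steps `≥ a > 0` and growth at most `v^d`, `0 ≤ κ ≤ 1`, `β` in `ℝ^m` and `τ > 0`. There is a set `E` in
`ℝ^m` of Hausdorff dimension at most `(m + κ) / (1 + τ)` such that for all `α` outside `E`, all number fields `F` in `ℂ`,
all `A` and all compact sets `L` of positive real numbers there is `B` such that for all `C` and all large `q` with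
`‖q α_j - β_j‖ ≤ C q^(-τ)` for all `j`: the same for EVERY element `t` of `F` in `L` of height `T ≥ 2` with
`|T - G q| ≤ q^κ`.
(3) Only finitely many elements of `F` have a height less than `T₁`; the infimum in the definition of the height is a
minimum, the height of a rational number in `(0, 1)` is its denominator, and the functions `a v^d` with `a > 0`, `d ≥ 1`
are examples of `G`. -/
theorem result :
    (∀ a b : ℝ, 0 < a → 1 < b →
      (∃ E : Set ℝ, dimH E = 0 ∧
        ∀ ξ : ℝ, 0 < ξ → ξ ∉ E → ∀ (F : IntermediateField ℚ ℂ) [NumberField F] (A τ : ℝ), 0 < τ →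
          ∃ B : ℝ, ∀ C : ℝ, ∃ T₁ : ℝ, ∀ (t : F) (r : ℝ), 0 < r → (t : ℂ) = r → T₁ ≤ height F t →
            |ξ - r| ≤ C * height F t ^ (-τ) → Formula (a * r) b (height F t ^ A) (height F t ^ B)) ∧
      ∀ (G : ℕ → ℝ) (d : ℝ), Expanding G d → ∀ κ : ℝ, 0 ≤ κ → κ ≤ 1 → ∀ (m : ℕ) (β : Fin m → ℝ) (τ : ℝ), 0 < τ →
      ∃ E : Set (Fin m → ℝ), dimH E ≤ ENNReal.ofReal ((m + κ) / (1 + τ)) ∧
        ∀ α, α ∉ E → ∀ (F : IntermediateField ℚ ℂ) [NumberField F] (A : ℝ) (L : Set ℝ),
          IsCompact L → (∀ r ∈ L, 0 < r) →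
          ∃ B : ℝ, ∀ C : ℝ, ∃ Q : ℕ, ∀ q : ℕ, Q ≤ q → Solves α β q (C * (q : ℝ) ^ (-τ)) →
            ∀ (t : F) (r : ℝ), r ∈ L → (t : ℂ) = r → 2 ≤ height F t → |height F t - G q| ≤ (q : ℝ) ^ κ →
              Formula (a * r) b (height F t ^ A) (height F t ^ B)) ∧
    (∀ (F : Type) [Field F] [NumberField F] (T : ℝ), {x : F | height F x < T}.Finite) ∧
    (∀ (F : Type) [Field F] [NumberField F] (x : F) (T : ℝ), height F x ≤ T ↔ HeightLe F T x) ∧
    (∀ (F : Type) [Field F] [NumberField F] (r : ℚ), 0 < r → r < 1 → height F (r : F) = r.den) ∧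
    ∀ a d : ℝ, 0 < a → 1 ≤ d → Expanding (fun v => a * (v : ℝ) ^ d) d := by
  refine ⟨fun a b ha hb => ⟨?_, fun G d hG κ hκ hκ1 m β τ hτ => ?_⟩,
    fun F _ _ T => Pool.Agent.N603.DB.fin_lt F T, fun F _ _ x T => Pool.Agent.N603.DA.ht_le_iff F x T,
    fun F _ _ r h0 h1 => Pool.Agent.N603.DA.ht_rat F r h0 h1, fun a b ha hb => expanding_pow ha hb⟩
  · obtain ⟨E, hE, h⟩ := Pool.Agent.N603.DB.near_every Pool.Agent.N603.DB.Nm.lg _ Complex.isOpen_slitPlane
      Pool.Agent.N603.DB.Nm.lg_an Pool.Agent.N603.DB.Nm.lg_loc (Pool.Agent.N603.DB.Nm.cc a b)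
    refine ⟨{y : ℝ | (y : ℂ) ∈ E}, Pool.Agent.N603.DB.dim_real hE, fun ξ hξ hξE F _ A τ hτ => ?_⟩
    obtain ⟨B, hB⟩ := h (ξ : ℂ) (Complex.ofReal_mem_slitPlane.2 hξ) hξE F 3 1 A τ hτ
    refine ⟨max B 0 + 1, fun C => ?_⟩
    obtain ⟨T₁, hT₁⟩ := hB C
    refine ⟨max T₁ 2, fun t r hr ht hT hd => ?_⟩
    have h1 := (hT₁ t ((le_max_left _ _).trans hT) (by
      rw [ht, ← Complex.ofReal_sub, Complex.norm_real]
      exact hd)).2
    rw [ht] at h1
    exact formula_of hr ha hb ((le_max_right _ _).trans hT) h1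
  · obtain ⟨E, hE, h⟩ := Pool.Agent.N603.DB.master_all' Pool.Agent.N603.DB.Nm.lg _ Complex.isOpen_slitPlane
      Pool.Agent.N603.DB.Nm.lg_an Pool.Agent.N603.DB.Nm.lg_loc (Pool.Agent.N603.DB.Nm.cc a b) hG hκ hκ1 β hτ
    refine ⟨E, hE, fun α hα F _ A L hL hL0 => ?_⟩
    obtain ⟨B, hB⟩ := h α hα F 3 1 A ((fun r : ℝ => (r : ℂ)) '' L) (hL.image Complex.continuous_ofReal) (by
      rintro _ ⟨r, hr, rfl⟩
      exact Complex.ofReal_mem_slitPlane.2 (hL0 r hr))
    refine ⟨max B 0 + 1, fun C => ?_⟩
    obtain ⟨Q, hQ⟩ := hB C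
    refine ⟨Q, fun q hq hs t r hr ht hT hG' => ?_⟩
    have h1 := hQ q hq hs t ⟨r, hr, ht.symm⟩ hG'
    rw [ht] at h1
    exact formula_of (hL0 r hr) ha hb hT h1

end Pool.Agent.Results.MP_606be1_nt.BasesNearEveryPoint
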