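import Pool.Agent.N743.Nc

/-!
# Near-coincidences between powers for many pairs of bases at once

Let `N(x, T)` be the number of the pairs `(n, m)` with `n ≤ T` and `|a ^ n - b ^ m| ≤ x`; the question is about
`a = π`, `b = e`, `T = ∞`. We consider a finite family of pairs of bases `(a_i, b_i)`, for instance all the pairs
`(q π, e)` with `q` in a finite set of rational numbers, or `(π ^ (ξ ^ k), e)`, `k = 0, …, K`, with `ξ = e`, `π` or `log 2`.

* For every `x ≥ 2` and every `h` the formula `N(x, T) = (log x) ^ 2 / (log a log b) + O(log x)` holds for all but at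
  most `h` of the pairs of bases, for all `T` between `C log x` and the `h`-fold iterated exponential
  `exp (κ exp (⋯ exp (κ log x)))`.
* The formula holds, with `T = ∞`, for the pairs which are not multiples of exceptional pairs `(n, m)` (primitive near
  misses), and for all the pairs of bases together there are at most `h + C` exceptional pairs with `n` at most the
  tower `2 ^ 2 ^ ⋯ ^ 2` of height `h`.

For one pair of bases the second part is the starting result `OffFewLines`; the case `h = 1` of the first part is the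
starting result `AllButOneBase`. The near misses of all the bases together form one sequence with exponentially
growing gaps, because near misses for two different pairs of bases give, by elimination, a good rational approximation
of a number with a measure of transcendence.
-/

set_option autoImplicit false

namespace Pool.Agent.Results.MP_606be1_nt.ManyBasesAtOnce

open Real

/-- the pairs `(n, m)` with `n ≤ T` and `|a ^ n - b ^ m| ≤ x` -/
def pairsUpTo (a b x T : ℝ) : Set (ℕ × ℕ) := {p | (p.1 : ℝ) ≤ T ∧ |a ^ p.1 - b ^ p.2| ≤ x}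

/-- the asymptotic formula at `x` for the pairs with `n ≤ T`, for all `T` with `C log x ≤ T < Y` -/
def Formula (C a b x Y : ℝ) : Prop :=
  ∀ T : ℝ, C * log x ≤ T → T < Y → (pairsUpTo a b x T).Finite ∧
    |(((pairsUpTo a b x T).ncard : ℕ) : ℝ) - log x ^ 2 / (log a * log b)| ≤ C * log x

/-- the iterated exponentials `log x`, `exp (κ log x) = x ^ κ`, `exp (κ x ^ κ)`, … -/
noncomputable def iterExp (κ x : ℝ) : ℕ → ℝ
  | 0 => log x
  | h + 1 => exp (κ * iterExp κ x h)

/-- the tower `2 ^ 2 ^ ... ^ 2` of height `h` -/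
def tower : ℕ → ℕ
  | 0 => 1
  | h + 1 => 2 ^ tower h

/-- `l = (n, m)` is a primitive near miss: `n ≥ 1` and `m` are coprime and `|a ^ n - b ^ m| < a ^ (n / 2)` -/
def Line (a b : ℝ) (l : ℕ × ℕ) : Prop :=
  1 ≤ l.1 ∧ l.1.Coprime l.2 ∧ |a ^ l.1 - b ^ l.2| ^ 2 < a ^ l.1

/-- the pairs `(n, m)` with `|a ^ n - b ^ m| ≤ x` which are not multiples of primitive near misses -/
def pairsOff (a b x : ℝ) : Set (ℕ × ℕ) :=
  {p | |a ^ p.1 - b ^ p.2| ≤ x ∧ ¬ ∃ l, Line a b l ∧ ∃ g : ℕ, p = (g * l.1, g * l.2)}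

/-- the statements for the family of the pairs of bases `(a i, b i)` -/
def AtOnce {ι : Type} (a b : ι → ℝ) : Prop :=
  ∃ κ C : ℝ, 0 < κ ∧
    -- the formula fails for at most `h` pairs of bases
    (∀ x : ℝ, 2 ≤ x → ∀ h : ℕ, {i | ¬ Formula C (a i) (b i) x (iterExp κ x h)}.ncard ≤ h) ∧
    -- all exceptional lines together are very few
    (∀ h : ℕ, {p : ι × (ℕ × ℕ) | Line (a p.1) (b p.1) p.2 ∧ p.2.1 ≤ tower h}.Finite ∧
      (({p : ι × (ℕ × ℕ) | Line (a p.1) (b p.1) p.2 ∧ p.2.1 ≤ tower h}.ncard : ℕ) : ℝ) ≤ h + C) ∧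
    -- the asymptotic formula off these lines
    ∀ i, ∀ x : ℝ, 2 ≤ x → (pairsOff (a i) (b i) x).Finite ∧
      |(((pairsOff (a i) (b i) x).ncard : ℕ) : ℝ) - log x ^ 2 / (log (a i) * log (b i))| ≤ C * log x

/-- `ξ` is `e`, `π` or the logarithm of a rational number -/
def Special (ξ : ℝ) : Prop := ξ = exp 1 ∨ ξ = π ∨ ∃ q : ℚ, 0 < q ∧ q ≠ 1 ∧ ξ = log q

lemma iterExp_eq (κ x : ℝ) (h : ℕ) : iterExp κ x h = Pool.Agent.N743.Nc.iter κ (log x) h := by
  induction h with
  | zero => rfl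
  | succ h ih => rw [iterExp, Pool.Agent.N743.Nc.iter, ih]

lemma tower_eq (h : ℕ) : tower h = Pool.Agent.R532.Nc.tower h := by
  induction h with
  | zero => rfl
  | succ h ih => rw [tower, Pool.Agent.R532.Nc.tower, ih]

theorem atOnce {ι : Type} [Finite ι] {a b : ι → ℝ} (ha : ∀ i, 1 < a i) (hb : ∀ i, 1 < b i)
    (hJ : ∀ i j, i ≠ j → Pool.Agent.R356.JointR (log (a i) / log (b i)) (log (a j) / log (b j))) :
    AtOnce a b := by
  classical
  cases nonempty_fintype ι
  obtain ⟨κ, hκ, C₁, hC₁, h1⟩ := Pool.Agent.N743.Nc.few_fail ha hb hJ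
  obtain ⟨C₂, hC₂, h2⟩ := Pool.Agent.N743.Nc.few_lines ha hb hJ
  choose C₃ hC₃0 hC₃ using fun i => Pool.Agent.TH709.NC.off_count (ha i) (hb i)
  obtain ⟨C₄, hC₄, hle⟩ := Pool.Agent.TH456.TM.exists_le_ge (Finset.univ : Finset ι) C₃
  obtain ⟨C, hC⟩ : ∃ C : ℝ, C = max C₁ (max C₂ C₄) := ⟨_, rfl⟩
  have hCC1 : C₁ ≤ C := by rw [hC]; exact le_max_left _ _
  have hCC2 : C₂ ≤ C := by rw [hC]; exact (le_max_left _ _).trans (le_max_right _ _)
  have hCC4 : C₄ ≤ C := by rw [hC]; exact (le_max_right _ _).trans (le_max_right _ _)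
  refine ⟨κ, C, hκ, fun x hx h => ?_, fun h => ?_, fun i x hx => ?_⟩
  · have h3 := h1 C hCC1 x hx h
    rw [← iterExp_eq] at h3
    refine le_trans (le_of_eq ?_) h3
    congr 1
    ext i
    simp only [Set.mem_ofPred_eq, not_iff_not]
    simp only [Formula, Pool.Agent.N743.Nc.Upto, pairsUpTo, Pool.Agent.R532.Nc.pairsUpTo, one_mul]
  · have e1 : {p : ι × (ℕ × ℕ) | Line (a p.1) (b p.1) p.2 ∧ p.2.1 ≤ tower h} =
        Pool.Agent.N743.Nc.Lines a b (Pool.Agent.R532.Nc.tower h) := by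
      ext p
      simp only [Set.mem_ofPred_eq, Pool.Agent.N743.Nc.Lines, Line, Pool.Agent.TH709.NC.LL, Nat.cast_le,
        ← tower_eq]
    rw [e1]
    exact ⟨Pool.Agent.N743.Nc.lines_fin ha hb _, (h2 h).trans (by linarith)⟩
  · obtain ⟨h3, h4⟩ := hC₃ i x hx
    have hlx : 0 ≤ log x := log_nonneg (by linarith)
    refine ⟨h3, h4.trans (mul_le_mul_of_nonneg_right ((hle i (Finset.mem_univ _)).trans hCC4) hlx)⟩

lemma he : 1 < exp 1 := by
  rw [one_lt_exp_iff]
  exact one_pos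

/-- two numbers whose difference has a measure of transcendence -/
lemma joint_diff {u v : ℝ} (h : Pool.Agent.TH456.TM.MeasT ((v - u : ℝ) : ℂ)) : Pool.Agent.R356.JointR u v := by
  have h3 := Pool.Agent.R473.JC.jointR_of_alg (v - u) h _ _
    (Pool.Agent.R473.JC.alg_lin (v - u) u 0 1 1 1 (by norm_num))
  have e1 : ((0 : ℤ) : ℝ) * (v - u) + ((1 : ℤ) : ℝ) * u = u := by push_cast; ring
  have e2 : ((1 : ℤ) : ℝ) * (v - u) + ((1 : ℤ) : ℝ) * u = v := by push_cast; ring
  rwa [e1, e2] at h3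

/-- **Main result.** (1) A general criterion. (2) The pairs of bases `(q a, e)`, `q` rational, for instance `a = π`.
(3) The pairs of bases `(a e ^ (r ξ), e)`, `r` rational, `ξ = e` or `π`. (4) The pairs of bases `(a ^ (ξ ^ k), e)`, for
instance `(π ^ (π ^ k), e)`. -/
theorem result :
    (∀ (ι : Type) [Finite ι] (a b : ι → ℝ), (∀ i, 1 < a i) → (∀ i, 1 < b i) →
      (∀ i j, i ≠ j → ∃ ξ, Special ξ ∧ IsAlgebraic
        (Algebra.adjoin ℤ ({log (a i) / log (b i), log (a j) / log (b j)} : Set ℝ)) ξ) → AtOnce a b) ∧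
    (∀ a : ℝ, 0 < a → ∀ Q : Finset ℚ, (∀ q ∈ Q, 0 < q ∧ 1 < q * a) →
      AtOnce (fun q : Q => ((q : ℚ) : ℝ) * a) (fun _ => exp 1)) ∧
    (∀ a : ℝ, 0 < a → ∀ ξ : ℝ, ξ = exp 1 ∨ ξ = π → ∀ R : Finset ℚ, (∀ r ∈ R, 1 < a * exp (r * ξ)) →
      AtOnce (fun r : R => a * exp (((r : ℚ) : ℝ) * ξ)) (fun _ => exp 1)) ∧
    (∀ a : ℝ, 1 < a → ∀ ξ : ℝ, Special ξ → 0 < ξ → ∀ K : Finset ℤ,
      AtOnce (fun k : K => a ^ (ξ ^ (k : ℤ))) (fun _ => exp 1)) := by
  have hmeas : ∀ ξ, Special ξ → Pool.Agent.TH456.TM.MeasT ((ξ : ℝ) : ℂ) := fun ξ hξ =>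
    Pool.Agent.R473.JC.measT_three ξ hξ
  refine ⟨fun ι _ a b ha hb h => ?_, fun a ha Q hQ => ?_, fun a ha ξ hξ R hR => ?_, fun a ha ξ hξ hξ0 K => ?_⟩
  · refine atOnce ha hb fun i j hij => ?_
    obtain ⟨ξ, hξ, halg⟩ := h i j hij
    exact Pool.Agent.R473.JC.jointR_of_alg ξ (hmeas ξ hξ) _ _ halg
  · refine atOnce (fun q => (hQ q q.2).2) (fun _ => he) fun q q' hne => ?_
    rw [log_exp, div_one, div_one]
    have hq := (hQ q q.2).1
    have hq' := (hQ q' q'.2).1
    have hqr : (0 : ℝ) < ((q : ℚ) : ℝ) := by exact_mod_cast hq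
    have hqr' : (0 : ℝ) < ((q' : ℚ) : ℝ) := by exact_mod_cast hq'
    have h2 : (q' : ℚ) / q ≠ 1 := by
      intro h
      rw [div_eq_one_iff_eq hq.ne'] at h
      exact hne (Subtype.ext h.symm)
    refine joint_diff ?_
    have e1 : log (((q' : ℚ) : ℝ) * a) - log (((q : ℚ) : ℝ) * a) = log (((q' : ℚ) / q : ℚ) : ℝ) := by
      rw [log_mul hqr'.ne' ha.ne', log_mul hqr.ne' ha.ne']
      push_cast
      rw [log_div hqr'.ne' hqr.ne']
      ring
    rw [e1]
    exact Pool.Agent.TH456.TM.measT_real_log _ (div_pos hq' hq) h2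
  · refine atOnce (fun r => hR r r.2) (fun _ => he) fun r r' hne => ?_
    rw [log_exp, div_one, div_one]
    refine joint_diff ?_
    have e1 : log (a * exp (((r' : ℚ) : ℝ) * ξ)) - log (a * exp (((r : ℚ) : ℝ) * ξ)) =
        (((r' : ℚ) - r : ℚ) : ℝ) * ξ := by
      rw [log_mul ha.ne' (exp_pos _).ne', log_mul ha.ne' (exp_pos _).ne', log_exp, log_exp]
      push_cast
      ring
    rw [e1]
    have h1 : Pool.Agent.TH456.TM.MeasT ((ξ : ℝ) : ℂ) := by
      refine hmeas ξ ?_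
      rcases hξ with h | h
      · exact Or.inl h
      · exact Or.inr (Or.inl h)
    have h2 : ((r' : ℚ) - r : ℚ) ≠ 0 := fun h => hne (Subtype.ext (by linarith))
    have h3 := Pool.Agent.TH456.TM.measT_mul_alg h1 (((r' : ℚ) - r : ℚ) : ℂ) (by
      have h4 : IsAlgebraic ℚ ((((r' : ℚ) - r : ℚ) : ℚ) : ℂ) := isAlgebraic_algebraMap _
      exact (IsFractionRing.isAlgebraic_iff ℤ ℚ ℂ).2 h4) (by exact_mod_cast h2)
    have e2 : (((((r' : ℚ) - r : ℚ) : ℝ) * ξ : ℝ) : ℂ) = (((r' : ℚ) - r : ℚ) : ℂ) * ξ := by push_cast; ring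
    rw [e2, mul_comm]
    exact h3
  · have hla : 0 < log a := log_pos ha
    have ha0 : 0 < a := by linarith
    refine atOnce (fun k => one_lt_rpow ha (zpow_pos hξ0 _)) (fun _ => he) fun k k' hne => ?_
    rw [log_exp, div_one, div_one, log_rpow ha0, log_rpow ha0, mul_comm (ξ ^ (k : ℤ)), mul_comm (ξ ^ (k' : ℤ))]
    exact Pool.Agent.R473.JC.joint_powers ξ (hmeas ξ hξ) (log a) hla.ne' k k' fun h => hne (Subtype.ext h)

end Pool.Agent.Results.MP_606be1_nt.ManyBasesAtOnce
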